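import Pool.Agent.Helper50.BC.Goals

/-!
# Project BC, packet CHI: the function (1 - exp(-t))/t is smooth and positive
-/

open scoped ContDiff
open Real

namespace Pool.Agent.Helper14.BC

open Pool.Agent.Helper50.BC

theorem goalCHI : G_CHI := by
  set f : ℝ → ℝ := fun t => 1 - Real.exp (-t) with hf
  have hfa : ∀ t, AnalyticAt ℝ f t := by
    intro t
    exact analyticAt_const.sub (analyticAt_id.neg.rexp)
  have hd : HasDerivAt f 1 0 := by
    have h1 : HasDerivAt (fun t : ℝ => -t) (-1) 0 := hasDerivAt_neg 0
    have h2 := h1.exp.const_sub 1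
    simpa using h2
  have h0 : f 0 = 0 := by simp [hf]
  have hχa : ∀ t, AnalyticAt ℝ (dslope f 0) t := by
    intro t
    by_cases ht : t = 0
    · subst ht
      obtain ⟨p, hp⟩ := hfa 0
      exact ⟨p.fslope, hp.has_fpower_series_dslope_fslope⟩
    · have h1 : AnalyticAt ℝ (fun s => (f s - f 0) / (s - 0)) t :=
        ((hfa t).sub analyticAt_const).div (analyticAt_id.sub analyticAt_const)
          (by simpa using ht)
      refine h1.congr ?_
      filter_upwards [isOpen_ne.mem_nhds ht] with s hs
      rw [dslope_of_ne _ hs, slope_def_field]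
  have hval : ∀ t, t * dslope f 0 t = 1 - Real.exp (-t) := by
    intro t
    have h1 := sub_smul_dslope f 0 t
    rw [h0, sub_zero, sub_zero, smul_eq_mul] at h1
    exact h1
  refine ⟨dslope f 0, ?_, ?_, hval⟩
  · rw [contDiff_iff_contDiffAt]
    intro t
    exact (hχa t).contDiffAt
  · intro t
    rcases lt_trichotomy t 0 with ht | ht | ht
    · have h1 : 1 < Real.exp (-t) := Real.one_lt_exp_iff.mpr (by linarith)
      have h2 := hval t
      by_contra h3
      push Not at h3
      have h4 : 0 ≤ t * dslope f 0 t := mul_nonneg_of_nonpos_of_nonpos ht.le h3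
      linarith
    · subst ht
      rw [dslope_same, hd.deriv]
      exact one_pos
    · have h1 : Real.exp (-t) < 1 := Real.exp_lt_one_iff.mpr (by linarith)
      have h2 := hval t
      by_contra h3
      push Not at h3
      have h4 : t * dslope f 0 t ≤ 0 := mul_nonpos_of_nonneg_of_nonpos ht.le h3
      linarith

end Pool.Agent.Helper14.BC
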